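import Pool.Agent.helper86.BK.Spec3

/-! KAS: a lower bound for one exponent gives the lower Minkowski dimension of Kakeya sets. -/

set_option autoImplicit false

namespace Pool.Agent.BK

theorem KAS_pow (s A : ℝ) (hs : 0 < s) :
    ∃ ρ₀ : ℝ, 0 < ρ₀ ∧ ∀ ρ : ℝ, 0 < ρ → ρ < ρ₀ → A ≤ ρ ^ (-s) := by
  have hA : 0 < |A| + 1 := by positivity
  refine ⟨(|A| + 1) ^ (-(1 / s)), Real.rpow_pos_of_pos hA _, fun ρ hρ hlt => ?_⟩
  have h1 : ρ ^ s ≤ ((|A| + 1) ^ (-(1 / s))) ^ s :=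
    Real.rpow_le_rpow hρ.le hlt.le hs.le
  rw [← Real.rpow_mul hA.le] at h1
  have h2 : -(1 / s) * s = -1 := by field_simp
  rw [h2, Real.rpow_neg_one] at h1
  have h3 : 0 < ρ ^ s := Real.rpow_pos_of_pos hρ _
  rw [Real.rpow_neg hρ.le]
  have h4 : |A| + 1 ≤ (ρ ^ s)⁻¹ := by
    rw [le_inv_comm₀ hA h3]
    exact h1
  linarith [le_abs_self A]

/-- a power of a number between constant multiples of `P` -/
theorem KAS_power (n P c s : ℝ) (hP : 0 < P) (hc : 0 < c) (h1 : c * P ≤ n) (h2 : n ≤ P) :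
    min 1 (c ^ s) * P ^ s ≤ n ^ s := by
  have hn : 0 < n := lt_of_lt_of_le (by positivity) h1
  have hPs : 0 < P ^ s := Real.rpow_pos_of_pos hP _
  rcases le_or_gt 0 s with h | h
  · calc min 1 (c ^ s) * P ^ s ≤ c ^ s * P ^ s :=
          mul_le_mul_of_nonneg_right (min_le_right _ _) hPs.le
      _ = (c * P) ^ s := (Real.mul_rpow hc.le hP.le).symm
      _ ≤ n ^ s := Real.rpow_le_rpow (by positivity) h1 h
  · calc min 1 (c ^ s) * P ^ s ≤ 1 * P ^ s :=
          mul_le_mul_of_nonneg_right (min_le_left _ _) hPs.le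
      _ = P ^ s := one_mul _
      _ ≤ n ^ s := Real.rpow_le_rpow_of_nonpos hn h2 h.le

theorem KAS (hSLI : SLI_stmt) (hDIG : DIG_stmt) (hFLD : FLD_stmt) : KAS_stmt := by
  intro α e hα0 hα1 he0 he1 hP j hj K hK ε hε
  obtain ⟨C', hC', hS'⟩ := hSLI j K hK
  obtain ⟨C, hC1, hC'C⟩ : ∃ C : ℝ, 1 ≤ C ∧ C' ≤ C := ⟨max 1 C', le_max_left _ _, le_max_right _ _⟩
  have hC : 0 < C := by linarith
  have hjR : (1 : ℝ) ≤ j := by exact_mod_cast hj
  have hj0 : (0 : ℝ) < j := by linarith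
  set A : ℝ := α + (1 - α) * j with hA
  have hA0 : 0 < A := by
    have : 0 < (1 - α) * j := mul_pos (by linarith) hj0
    linarith
  set x : ℝ := α / A with hx
  have hx0 : 0 < x := div_pos hα0 hA0
  set y : ℝ := j / A with hy
  have hy0 : 0 < y := div_pos hj0 hA0
  have hxy : x * (j / α) = y := by
    rw [hx, hy]
    field_simp
  have hxinv : (1 + j * ((1 - α) / α)) * x = 1 := by
    have h1 : 1 + j * ((1 - α) / α) = A / α := by
      rw [hA]
      field_simp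
    rw [h1, hx, div_mul_div_comm, mul_comm A α, div_self (mul_pos hα0 hA0).ne']
  set ε' : ℝ := ε * A / (2 * j) with hε'
  have hε'0 : 0 < ε' := by positivity
  obtain ⟨N₀, hN₀⟩ := hP ε' hε'0
  set s : ℝ := e - ε' - (1 - α) with hs
  set E : ℝ := (α + e * j) / A with hE
  have hyE : y * s + 1 = E - ε / 2 := by
    rw [hy, hs, hε', hE]
    rw [div_mul_eq_mul_div, div_add_one hA0.ne', eq_sub_iff_add_eq, div_add_div _ _ hA0.ne' two_ne_zero,
      div_eq_div_iff (by positivity) hA0.ne']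
    have : (j : ℝ) * (e - ε * A / (2 * j) - (1 - α)) = j * e - ε * A / 2 - j * (1 - α) := by
      field_simp
    rw [this, hA]
    ring
  set c₂ : ℝ := 1 / 2 * (1 / (4 * 2 ^ j)) ^ (1 / α) * (1 / (8 * C)) ^ y with hc₂
  have hc₂0 : 0 < c₂ := by positivity
  set c₃ : ℝ := min 1 (c₂ ^ s) with hc₃
  have hc₃0 : 0 < c₃ := lt_min one_pos (Real.rpow_pos_of_pos hc₂0 _)
  obtain ⟨r1, hr1, hr1'⟩ := KAS_pow x ((8 * C) ^ x * (16 * N₀ + 16)) hx0
  obtain ⟨r2, hr2, hr2'⟩ := KAS_pow (ε / 2) (4 * C / c₃) (by positivity)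
  refine ⟨min r1 (min r2 (1 / C)), by positivity, ?_⟩
  intro ρ hρ hlt T hT
  have l1 : ρ < r1 := hlt.trans_le (min_le_left _ _)
  have l2 : ρ < r2 := hlt.trans_le ((min_le_right _ _).trans (min_le_left _ _))
  have l3 : ρ < 1 / C := hlt.trans_le ((min_le_right _ _).trans (min_le_right _ _))
  have b1 := hr1' ρ hρ l1
  have b2 := hr2' ρ hρ l2
  have hCρ : C * ρ ≤ 1 := by
    rw [lt_div_iff₀ hC] at l3
    linarith
  have hN₀n : (0 : ℝ) ≤ N₀ := Nat.cast_nonneg _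
  -- the number w
  set w : ℝ := 1 / (8 * C * ρ) with hw
  have hw0 : 0 < w := by positivity
  have hwρ : w ≤ ρ⁻¹ := by
    rw [hw, one_div]
    apply inv_anti₀ hρ
    have h1 : 1 * ρ ≤ 8 * C * ρ := mul_le_mul_of_nonneg_right (by linarith) hρ.le
    linarith
  set X : ℝ := w ^ x with hX
  have hX0 : 0 < X := Real.rpow_pos_of_pos hw0 _
  have hX16 : 16 * (N₀ : ℝ) + 16 ≤ X := by
    have h8 : 0 < (8 * C) ^ x := by positivity
    have h1 : X * (8 * C) ^ x = ρ ^ (-x) := by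
      rw [hX, ← Real.mul_rpow hw0.le (by positivity), Real.rpow_neg hρ.le, ← Real.inv_rpow hρ.le]
      congr 1
      rw [hw]
      field_simp
    have h2 : (8 * C) ^ x * (16 * N₀ + 16) ≤ (8 * C) ^ x * X := by
      rw [mul_comm ((8 * C) ^ x) X, h1]
      exact b1
    exact le_of_mul_le_mul_left h2 h8
  set D : ℕ := ⌊X⌋₊ with hD
  have hDX : (D : ℝ) ≤ X := Nat.floor_le hX0.le
  have hDX' : X / 2 ≤ D := by
    have := Nat.lt_floor_add_one X
    linarith
  have hD8 : (8 : ℝ) ≤ D := by linarith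
  have hD0 : (0 : ℝ) < D := by linarith
  have hD1 : 1 ≤ D := by
    have : (1 : ℝ) ≤ D := by linarith
    exact_mod_cast this
  set M : ℝ := (D : ℝ) ^ j with hM
  have hM0 : 0 < M := by positivity
  have hMD : (D : ℝ) ≤ M := le_self_pow₀ (by linarith) (by omega)
  set Z : ℝ := (M / 4) ^ (1 / α) with hZ
  have hZ0 : 0 < Z := by positivity
  have h1α : 1 ≤ 1 / α := by
    rw [le_div_iff₀ hα0]
    linarith
  have hZM : M / 4 ≤ Z := Real.self_le_rpow_of_one_le (by linarith) h1α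
  set N : ℕ := ⌊Z⌋₊ with hN
  have hNZ : (N : ℝ) ≤ Z := Nat.floor_le hZ0.le
  have hNZ' : Z / 2 ≤ N := by
    have := Nat.lt_floor_add_one Z
    linarith
  have hNN₀ : N₀ ≤ N := by
    have : (N₀ : ℝ) ≤ N := by linarith
    exact_mod_cast this
  have hN1 : (1 : ℝ) ≤ N := by
    linarith
  have hN1' : 1 ≤ N := by exact_mod_cast hN1
  have hN0 : (0 : ℝ) < N := by linarith
  have hNα : (N : ℝ) ^ α ≤ M / 4 := by
    have h1 : (N : ℝ) ^ α ≤ Z ^ α := Real.rpow_le_rpow hN0.le hNZ hα0.le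
    have h2 : Z ^ α = M / 4 := by
      rw [hZ, ← Real.rpow_mul (by positivity), one_div, inv_mul_cancel₀ hα0.ne', Real.rpow_one]
    rw [h2] at h1
    exact h1
  -- the length L
  set Y : ℝ := (N : ℝ) ^ (1 - α) with hY
  have hY1 : 1 ≤ Y := Real.one_le_rpow hN1 (by linarith)
  set L : ℕ := ⌈2 * Y⌉₊ + 1 with hL
  have hLY : (L : ℝ) ≤ 4 * Y := by
    have := Nat.ceil_lt_add_one (show (0 : ℝ) ≤ 2 * Y by linarith)
    rw [hL]
    push_cast
    linarith
  have hLY' : 2 * Y + 1 ≤ L := by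
    have := Nat.le_ceil (2 * Y)
    rw [hL]
    push_cast
    linarith
  have hYD : Y * D ≤ w := by
    have h1 : Y ≤ M ^ ((1 - α) / α) := by
      have h2 : Y ≤ Z ^ (1 - α) := Real.rpow_le_rpow hN0.le hNZ (by linarith)
      have h3 : Z ^ (1 - α) = (M / 4) ^ ((1 - α) / α) := by
        rw [hZ, ← Real.rpow_mul (by positivity)]
        congr 1
        ring
      have h4 : (M / 4) ^ ((1 - α) / α) ≤ M ^ ((1 - α) / α) :=
        Real.rpow_le_rpow (by positivity) (by linarith) (div_nonneg (by linarith) hα0.le)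
      rw [h3] at h2
      exact h2.trans h4
    have h5 : M ^ ((1 - α) / α) * D = (D : ℝ) ^ (1 + j * ((1 - α) / α)) := by
      rw [hM, ← Real.rpow_natCast, ← Real.rpow_mul hD0.le, Real.rpow_add hD0, Real.rpow_one,
        mul_comm]
    have hpos : 0 ≤ 1 + j * ((1 - α) / α) := by
      have : 0 ≤ (1 - α) / α := div_nonneg (by linarith) hα0.le
      positivity
    have h6 : (D : ℝ) ^ (1 + j * ((1 - α) / α)) ≤ X ^ (1 + j * ((1 - α) / α)) :=
      Real.rpow_le_rpow hD0.le hDX hpos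
    have h7 : X ^ (1 + j * ((1 - α) / α)) = w := by
      rw [hX, ← Real.rpow_mul hw0.le, mul_comm x, hxinv, Real.rpow_one]
    calc Y * D ≤ M ^ ((1 - α) / α) * D := mul_le_mul_of_nonneg_right h1 hD0.le
      _ = (D : ℝ) ^ (1 + j * ((1 - α) / α)) := h5
      _ ≤ X ^ (1 + j * ((1 - α) / α)) := h6
      _ = w := h7
  have hLDρ : C * (L * D * ρ) ≤ 1 := by
    have h1 : (L : ℝ) * D ≤ 4 * w := by
      calc (L : ℝ) * D ≤ 4 * Y * D := mul_le_mul_of_nonneg_right hLY hD0.le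
        _ = 4 * (Y * D) := by ring
        _ ≤ 4 * w := by linarith
    have h2 : C * ρ * (4 * w) = 1 / 2 := by
      rw [hw]
      field_simp
      norm_num
    have h3 : C * (L * D * ρ) = C * ρ * (L * D) := by ring
    rw [h3]
    have h4 : C * ρ * (L * D) ≤ C * ρ * (4 * w) := mul_le_mul_of_nonneg_left h1 (by positivity)
    linarith
  have hLDn : (0 : ℝ) ≤ L * D * ρ := by positivity
  have hC'1 : C' * ρ ≤ 1 := (mul_le_mul_of_nonneg_right hC'C hρ.le).trans hCρ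
  have hC'2 : C' * (L * D * ρ) ≤ 1 := (mul_le_mul_of_nonneg_right hC'C hLDn).trans hLDρ
  obtain ⟨B, hB, hBA⟩ := hS' ρ D L T hρ hD1 hC'1 hC'2 hT
  obtain ⟨B', hB', hBA'⟩ := hDIG j D L B hD1 hBA
  -- folding
  obtain ⟨a, ha⟩ := hFLD N (dyP α N) B' hN1' (fun q hq => hq.1.one_lt.le) (by
    intro q hq
    obtain ⟨hqp, hq1, hq2⟩ := hq
    have hqM : q < D ^ j := by
      have h1 : (q : ℝ) < M := by linarith
      have h2 : (q : ℝ) < ((D ^ j : ℕ) : ℝ) := by
        rw [Nat.cast_pow]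
        exact h1
      exact_mod_cast h2
    obtain ⟨b, hb⟩ := hBA' q hqM
    refine ⟨L, b, ?_, hb⟩
    have hq0 : (0 : ℝ) ≤ q := Nat.cast_nonneg _
    have h1 : (N : ℝ) ≤ Y * q := by
      have h2 : (N : ℝ) = Y * (N : ℝ) ^ α := by
        rw [hY, ← Real.rpow_add hN0]
        have : 1 - α + α = 1 := by ring
        rw [this, Real.rpow_one]
      calc (N : ℝ) = Y * (N : ℝ) ^ α := h2
        _ ≤ Y * q := mul_le_mul_of_nonneg_left hq1 (by linarith)
    have h3 : (2 * (N : ℝ) + q) ≤ L * q := by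
      calc 2 * (N : ℝ) + q ≤ 2 * (Y * q) + q := by linarith
        _ = (2 * Y + 1) * q := by ring
        _ ≤ L * q := mul_le_mul_of_nonneg_right hLY' hq0
    exact_mod_cast h3)
  have hcov := hN₀ N hNN₀ a
  have hTc : (0 : ℝ) ≤ T.card := Nat.cast_nonneg _
  have hmain : (N : ℝ) ^ (e - ε') ≤ 4 * C * ρ * T.card * Y := by
    have k1 : (cov (dyP α N) a N : ℝ) ≤ B'.card := by exact_mod_cast ha
    have k2 : (B'.card : ℝ) ≤ B.card := by exact_mod_cast hB'
    have k3 : C' * L * ρ * T.card ≤ C * L * ρ * T.card :=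
      mul_le_mul_of_nonneg_right (mul_le_mul_of_nonneg_right
        (mul_le_mul_of_nonneg_right hC'C (Nat.cast_nonneg _)) hρ.le) hTc
    have k4 : C * L * ρ * T.card ≤ C * (4 * Y) * ρ * T.card :=
      mul_le_mul_of_nonneg_right (mul_le_mul_of_nonneg_right
        (mul_le_mul_of_nonneg_left hLY hC.le) hρ.le) hTc
    calc (N : ℝ) ^ (e - ε') ≤ cov (dyP α N) a N := hcov
      _ ≤ C * (4 * Y) * ρ * T.card := by linarith
      _ = 4 * C * ρ * T.card * Y := by ring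
  have hNs : (N : ℝ) ^ s ≤ 4 * C * ρ * T.card := by
    rw [hs, Real.rpow_sub hN0, div_le_iff₀ (by positivity)]
    exact hmain
  -- comparison of N with ρ
  have hlow : c₂ * ρ ^ (-y) ≤ N := by
    have h1 : w ^ y = (1 / (8 * C)) ^ y * ρ ^ (-y) := by
      rw [Real.rpow_neg hρ.le, ← Real.inv_rpow hρ.le, ← Real.mul_rpow (by positivity) (by positivity)]
      congr 1
      rw [hw]
      field_simp
    have h2 : (X ^ j) ^ (1 / α) = w ^ y := by
      rw [hX, ← Real.rpow_natCast, ← Real.rpow_mul hw0.le, ← Real.rpow_mul hw0.le]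
      congr 1
      rw [← hxy]
      ring
    have h3 : X ^ j * (1 / (4 * 2 ^ j)) ≤ M / 4 := by
      have h4 : (X / 2) ^ j ≤ M := pow_le_pow_left₀ (by positivity) hDX' j
      rw [div_pow] at h4
      have h5 : X ^ j * (1 / (4 * 2 ^ j)) = X ^ j / 2 ^ j / 4 := by
        field_simp
      rw [h5]
      linarith
    have h6 : (X ^ j * (1 / (4 * 2 ^ j))) ^ (1 / α) ≤ Z :=
      Real.rpow_le_rpow (by positivity) h3 (by positivity)
    rw [Real.mul_rpow (by positivity) (by positivity), h2, h1] at h6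
    calc c₂ * ρ ^ (-y) = (1 / (8 * C)) ^ y * ρ ^ (-y) * (1 / (4 * 2 ^ j)) ^ (1 / α) / 2 := by
          rw [hc₂]
          ring
      _ ≤ Z / 2 := by linarith
      _ ≤ N := hNZ'
  have hupp : (N : ℝ) ≤ ρ ^ (-y) := by
    have h1 : Z ≤ M ^ (1 / α) :=
      Real.rpow_le_rpow (by positivity) (by linarith) (by positivity)
    have h2 : M ^ (1 / α) ≤ (X ^ j) ^ (1 / α) :=
      Real.rpow_le_rpow hM0.le (pow_le_pow_left₀ hD0.le hDX j) (by positivity)
    have h3 : (X ^ j) ^ (1 / α) = w ^ y := by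
      rw [hX, ← Real.rpow_natCast, ← Real.rpow_mul hw0.le, ← Real.rpow_mul hw0.le]
      congr 1
      rw [← hxy]
      ring
    have h4 : w ^ y ≤ (ρ⁻¹) ^ y := Real.rpow_le_rpow hw0.le hwρ hy0.le
    have h5 : (ρ⁻¹) ^ y = ρ ^ (-y) := by
      rw [Real.rpow_neg hρ.le, Real.inv_rpow hρ.le]
    rw [h5] at h4
    rw [h3] at h2
    linarith
  have hpow := KAS_power N (ρ ^ (-y)) c₂ s (Real.rpow_pos_of_pos hρ _) hc₂0 hlow hupp
  have hρs : (ρ ^ (-y)) ^ s = ρ ^ (-(y * s)) := by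
    rw [← Real.rpow_mul hρ.le]
    congr 1
    ring
  rw [hρs] at hpow
  have hfin : c₃ * ρ ^ (-(y * s)) ≤ 4 * C * ρ * T.card := hpow.trans hNs
  have hP0 : 0 < ρ ^ (-(E - ε)) := Real.rpow_pos_of_pos hρ _
  have hsplit : ρ ^ (-(E - ε)) * ρ ^ (-(ε / 2)) = ρ ^ (-(y * s)) * ρ⁻¹ := by
    rw [← Real.rpow_neg_one ρ, ← Real.rpow_add hρ, ← Real.rpow_add hρ]
    congr 1
    linarith
  have hb2 : ρ ^ (-(E - ε)) * (4 * C / c₃) ≤ ρ ^ (-(y * s)) * ρ⁻¹ := by
    rw [← hsplit]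
    exact mul_le_mul_of_nonneg_left b2 hP0.le
  have hb3 : ρ ^ (-(E - ε)) * (4 * C) ≤ c₃ * ρ ^ (-(y * s)) * ρ⁻¹ := by
    have h1 : ρ ^ (-(E - ε)) * (4 * C) = ρ ^ (-(E - ε)) * (4 * C / c₃) * c₃ := by
      field_simp
    rw [h1]
    calc ρ ^ (-(E - ε)) * (4 * C / c₃) * c₃ ≤ ρ ^ (-(y * s)) * ρ⁻¹ * c₃ :=
          mul_le_mul_of_nonneg_right hb2 hc₃0.le
      _ = c₃ * ρ ^ (-(y * s)) * ρ⁻¹ := by ring
  have hb4 : c₃ * ρ ^ (-(y * s)) * ρ⁻¹ ≤ 4 * C * T.card := by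
    calc c₃ * ρ ^ (-(y * s)) * ρ⁻¹ ≤ 4 * C * ρ * T.card * ρ⁻¹ :=
          mul_le_mul_of_nonneg_right hfin (inv_nonneg.2 hρ.le)
      _ = 4 * C * T.card := by
          field_simp
  have hb5 : ρ ^ (-(E - ε)) * (4 * C) ≤ T.card * (4 * C) := by
    calc ρ ^ (-(E - ε)) * (4 * C) ≤ 4 * C * T.card := hb3.trans hb4
      _ = T.card * (4 * C) := by ring
  exact le_of_mul_le_mul_right hb5 (by positivity)

end Pool.Agent.BK
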